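import Pool.Agent.Lib.MP_a95da8_nt.Final

namespace Pool.Agent.Results.MP_a95da8_nt.PowerSaving

theorem result : ∃ c : ℝ, ∀ X : ℕ,
    (((Finset.range X).filter (fun k : ℕ => catalan (2 ^ k - 1) % 6 = 5)).card : ℝ)
      ≤ c * (X : ℝ) ^ (0.599 : ℝ) := by
  obtain ⟨c, h⟩ := Pool.Agent.Lib.MP_a95da8_nt.main
  refine ⟨c, fun X => le_trans ?_ (h X)⟩
  exact_mod_cast Finset.card_le_card (Finset.monotone_filter_right _ fun k _ hk => by omega)

end Pool.Agent.Results.MP_a95da8_nt.PowerSaving
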