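import Pool.Agent.Lib.MP_a95da8_nt.RealC

namespace Pool.Agent.Results.MP_a95da8_nt.RealOrbits

theorem result (l : ℝ) (X : ℕ) :
    (({n : ℕ | n < X ∧ 1 ≤ l * 2 ^ n ∧ 2 ∉ Nat.digits 3 ⌊l * 2 ^ n⌋₊}.ncard : ℕ) : ℝ)
      ≤ 22006 * (X : ℝ) ^ Real.logb 3 2 := by
  classical
  have h := Pool.Agent.Lib.MP_a95da8_nt.RealOrb.count_all (l := l) X
  rw [← Set.ncard_coe_finset] at h
  convert h using 3
  · ext n
    simp [Pool.Agent.Lib.MP_a95da8_nt.RealOrb.K]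
  · rfl

end Pool.Agent.Results.MP_a95da8_nt.RealOrbits
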